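import Pool.Agent.Lib.CPlane.AOAll

/-!
# Sharply flag-transitive affine planes: the complete answer, order by order

The definitions (`AffinePlane`, `IsCollineationGroup`, `SharplyFlagTransitive`, `agLines`,
`Desarguesian`) are in `Pool.Agent.Lib.CPlane.Aff`.
-/

namespace Pool.Agent.Results.MP_9dadb8_co.AllOrders

open Pool.Agent.Lib.CPlane

/-- Let `n ≥ 2`. An affine plane of order `n` with a sharply flag-transitive collineation group
exists if and only if `n` is a power of two. All such planes of order `n` are desarguesian if and
only if `n = 8` or `n` is not of the form `2 ^ m` where `m` is not a power of two. -/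
theorem result (n : ℕ) (hn : 2 ≤ n) :
    ((∃ (P : Type) (A : AffinePlane P n) (G : Subgroup (Equiv.Perm P)),
        IsCollineationGroup A G ∧ SharplyFlagTransitive A G) ↔ ∃ m, n = 2 ^ m) ∧
    ((∀ (P : Type) (A : AffinePlane P n) (G : Subgroup (Equiv.Perm P)),
        IsCollineationGroup A G → SharplyFlagTransitive A G → Desarguesian A) ↔
      n = 8 ∨ ∀ m, n = 2 ^ m → ∃ k, m = 2 ^ k) :=
  AO.all n hn

end Pool.Agent.Results.MP_9dadb8_co.AllOrders
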