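import Pool.Agent.Lib.CPlane.S2All
import Pool.Agent.Lib.CPlane.AO7
import Pool.Agent.Lib.CPlane.CommCop

/-!
# Sharply flag-transitive affine planes whose dimension over the kernel is a power of two

The definitions (`AffinePlane`, `IsCollineationGroup`, `SharplyFlagTransitive`, `agLines`,
`Desarguesian`, `IsHom`) are in `Pool.Agent.Lib.CPlane.Aff` and `Pool.Agent.Lib.CPlane.ITDef`.
-/

namespace Pool.Agent.Results.MP_9dadb8_co.TwoPowerDim

open Pool.Agent.Lib.CPlane

/-- Let `A` be a finite affine plane of order `n`, let `G` be a group of collineations which is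
sharply transitive on the flags, and let `o` be a point. If `n = s ^ (2 ^ a)`, where `s - 1` is
the number of the collineations which fix every line through `o`, and if the stabiliser of `o` in
`G` commutes with these or `n = 2 ^ m` with `m` coprime to `n + 1`, then `A` is desarguesian. -/
theorem result (P : Type) (n a : ℕ) (A : AffinePlane P n) (G : Subgroup (Equiv.Perm P))
    (hG : IsCollineationGroup A G) (hflag : SharplyFlagTransitive A G) (o : P)
    (hn : n = ({δ | IsHom A o δ}.ncard + 1) ^ 2 ^ a)
    (h : (∀ g ∈ G, g o = o → ∀ δ, IsHom A o δ → g * δ = δ * g) ∨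
      ∃ m, n = 2 ^ m ∧ Nat.Coprime m (n + 1)) :
    Desarguesian A := by
  have hpos : 0 < n := by
    rw [hn]
    positivity
  have hfin : Finite P := Nat.finite_of_card_ne_zero (by
    rw [A.card_points]
    positivity)
  have h1 : (1 : Equiv.Perm P) ∈ {δ | IsHom A o δ} := by
    refine ⟨fun L hL => ?_, fun L _ _ => ?_⟩
    · simpa using hL
    · simp
  have hs : 0 < {δ | IsHom A o δ}.ncard := (Set.ncard_pos (Set.toFinite _)).2 ⟨1, h1⟩
  have hn2 : 2 ≤ n := by
    have h2 : {δ | IsHom A o δ}.ncard + 1 ≤ ({δ | IsHom A o δ}.ncard + 1) ^ 2 ^ a :=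
      Nat.le_self_pow (by positivity) _
    omega
  have hcomm : ∀ g ∈ G, g o = o → ∀ δ, IsHom A o δ → g * δ = δ * g := by
    rcases h with h | ⟨m, hm, hcop⟩
    · exact h
    · exact comm_of_coprime A G hG hflag o hn2 m hm hcop
  exact S2.plane_of_main S2.main2 A G hG hflag o
    (Or.inr ⟨AO.a7 P n A G hn2 hG hflag, ⟨a, hn⟩, hcomm⟩)

end Pool.Agent.Results.MP_9dadb8_co.TwoPowerDim
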